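import Pool.Agent.H929.KC.Stm2

/-! `S_EXL` of the project KC of helper929. -/

set_option autoImplicit false

namespace Pool.Agent.H717.KC

open Polynomial

variable {Ω : Type} [Field Ω]


/-- coprimality lifts from the residue field -/
theorem cop_lift (s h : Polynomial (PowerSeries Ω)) (m : ℕ) (hs : s.natDegree ≤ m)
    (hsb : (s.map (PowerSeries.constantCoeff : PowerSeries Ω →+* Ω)).natDegree = m) (hs0 : s.map (PowerSeries.constantCoeff : PowerSeries Ω →+* Ω) ≠ 0)
    (hc : IsCoprime (s.map (PowerSeries.constantCoeff : PowerSeries Ω →+* Ω)) (h.map (PowerSeries.constantCoeff : PowerSeries Ω →+* Ω))) : IsCoprime s h := by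
  have hcoef : (s.map (PowerSeries.constantCoeff : PowerSeries Ω →+* Ω)).coeff m ≠ 0 := by
    rw [← hsb]
    exact leadingCoeff_ne_zero.2 hs0
  by_cases h0 : m = 0 ∧ h.natDegree = 0
  · obtain ⟨h1, -⟩ := h0
    have h2 : s = C (s.coeff 0) := eq_C_of_natDegree_le_zero (by omega)
    have h3 : IsUnit (s.coeff 0) := by
      rw [PowerSeries.isUnit_iff_constantCoeff, isUnit_iff_ne_zero]
      rw [coeff_map, h1] at hcoef
      exact hcoef
    have h4 : IsUnit s := by
      rw [h2]
      exact isUnit_C.2 h3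
    obtain ⟨w, hw⟩ := h4
    exact ⟨(↑w⁻¹ : Polynomial (PowerSeries Ω)), 0, by rw [← hw, Units.inv_mul, zero_mul, add_zero]⟩
  · have H : m ≠ 0 ∨ h.natDegree ≠ 0 := by
      by_contra hcon
      push Not at hcon
      exact h0 hcon
    obtain ⟨p, q, -, -, e⟩ := exists_mul_add_mul_eq_C_resultant s h hs le_rfl H
    have hR : (PowerSeries.constantCoeff : PowerSeries Ω →+* Ω) (resultant s h m h.natDegree) ≠ 0 := by
      rw [← resultant_map_map]
      obtain ⟨k, hk⟩ := Nat.exists_eq_add_of_le (natDegree_map_le (p := h) (f := (PowerSeries.constantCoeff : PowerSeries Ω →+* Ω)))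
      rw [hk, resultant_add_right_deg _ _ _ _ _ le_rfl]
      refine mul_ne_zero (pow_ne_zero _ hcoef) ?_
      rw [← hsb]
      exact resultant_ne_zero _ _ hc
    have hU : IsUnit (resultant s h m h.natDegree) := by
      rw [PowerSeries.isUnit_iff_constantCoeff, isUnit_iff_ne_zero]
      exact hR
    obtain ⟨v, hv⟩ := hU
    refine ⟨C (↑v⁻¹ : PowerSeries Ω) * p, C (↑v⁻¹ : PowerSeries Ω) * q, ?_⟩
    calc C (↑v⁻¹ : PowerSeries Ω) * p * s + C (↑v⁻¹ : PowerSeries Ω) * q * h
        = C (↑v⁻¹ : PowerSeries Ω) * (s * p + h * q) := by ring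
      _ = 1 := by
        rw [e, ← hv, ← C_mul, Units.inv_mul, C_1]

theorem natDegree_map_phi {L : Type} [Field L] (φ : PowerSeries Ω →+* L)
    (hφ : Function.Injective φ) (s : Polynomial (PowerSeries Ω)) :
    (s.map φ).natDegree = s.natDegree := natDegree_map_eq_of_injective hφ s

theorem degree_lift (s : Polynomial (PowerSeries Ω)) (m : ℕ) (hs : s.natDegree ≤ m)
    (hsb : (s.map (PowerSeries.constantCoeff : PowerSeries Ω →+* Ω)).natDegree = m) : s.natDegree = m := by
  have := natDegree_map_le (p := s) (f := (PowerSeries.constantCoeff : PowerSeries Ω →+* Ω))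
  omega

theorem t_EXL : Pool.Agent.H929.KC.S_EXL := by
  intro Ω L _ _ φ hφ f g f' g' fb gb α β hfg hf hf' hg hg' hα hβ hfb hgb hfd hf'd hgd hg'd _
  have hfn : f.natDegree = α := degree_lift f α hfd (by rw [hf, hα])
  have hf'n : f'.natDegree = α := degree_lift f' α hf'd (by rw [hf', hα])
  have hF0 : f.map φ ≠ 0 := by
    rw [Ne, Polynomial.map_eq_zero_iff hφ]
    rintro rfl
    rw [Polynomial.map_zero] at hf
    exact hfb hf.symm
  have hprod : f.map φ * g.map φ = f'.map φ * g'.map φ := by
    rw [← Polynomial.map_mul, hfg, Polynomial.map_mul]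
  have hgcd0 : EuclideanDomain.gcd (f.map φ) (f'.map φ) ≠ 0 := by
    intro h
    exact hF0 (EuclideanDomain.gcd_eq_zero_iff.1 h).1
  have hle : (EuclideanDomain.gcd (f.map φ) (f'.map φ)).natDegree ≤ α := by
    rw [← hfn, ← natDegree_map_phi φ hφ f]
    exact natDegree_le_of_dvd (EuclideanDomain.gcd_dvd_left _ _) hF0
  refine ⟨fun hc => ?_, fun ξ u hu hu0 hc => ?_⟩
  · have h1 : IsCoprime f' g := by
      refine cop_lift f' g α hf'd (by rw [hf', hα]) (by rw [hf']; exact hfb) ?_
      rw [hf', hg]
      exact hc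
    have h2 : IsCoprime (f'.map φ) (g.map φ) := h1.map (mapRingHom φ)
    have h3 : f'.map φ ∣ f.map φ := by
      refine h2.dvd_of_dvd_mul_right ?_
      rw [hprod]
      exact dvd_mul_right _ _
    have h4 : f'.map φ ∣ EuclideanDomain.gcd (f.map φ) (f'.map φ) :=
      EuclideanDomain.dvd_gcd h3 dvd_rfl
    have h5 := natDegree_le_of_dvd h4 hgcd0
    rw [natDegree_map_phi φ hφ f', hf'n] at h5
    exact le_antisymm hle h5
  · -- the leading coefficient of `f'` is a unit
    have hlc : IsUnit f'.leadingCoeff := by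
      rw [PowerSeries.isUnit_iff_constantCoeff, isUnit_iff_ne_zero]
      have h1 : (f'.map PowerSeries.constantCoeff).coeff α ≠ 0 := by
        rw [hf', ← hα]
        exact leadingCoeff_ne_zero.2 hfb
      rw [coeff_map, ← hf'n] at h1
      exact h1
    obtain ⟨v, hv⟩ := hlc
    have hmon : (C (↑v⁻¹ : PowerSeries Ω) * f').Monic := by
      rw [Monic, leadingCoeff_mul, leadingCoeff_C, ← hv, Units.inv_mul]
    have hev : (PowerSeries.constantCoeff (R := Ω)) (f'.eval (PowerSeries.C ξ)) = 0 := by
      have h1 : (f'.map (PowerSeries.constantCoeff (R := Ω))).eval ξ = (PowerSeries.constantCoeff (R := Ω)) (f'.eval (PowerSeries.C ξ)) := by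
        rw [eval_map]
        have := eval₂_at_apply (p := f') (PowerSeries.constantCoeff (R := Ω)) (PowerSeries.C ξ)
        rw [PowerSeries.constantCoeff_C] at this
        exact this
      rw [← h1, hf', hu]
      simp
    have hdev : (PowerSeries.constantCoeff (R := Ω)) (f'.derivative.eval (PowerSeries.C ξ)) = u.eval ξ := by
      have h1 : (f'.derivative.map (PowerSeries.constantCoeff (R := Ω))).eval ξ = (PowerSeries.constantCoeff (R := Ω)) (f'.derivative.eval (PowerSeries.C ξ)) := by
        rw [eval_map]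
        have := eval₂_at_apply (p := f'.derivative) (PowerSeries.constantCoeff (R := Ω)) (PowerSeries.C ξ)
        rw [PowerSeries.constantCoeff_C] at this
        exact this
      rw [← h1, ← derivative_map, hf', hu]
      simp
    have hmem : ∀ s : PowerSeries Ω, (PowerSeries.constantCoeff (R := Ω)) s = 0 → s ∈ (Ideal.span {PowerSeries.X} : Ideal (PowerSeries Ω)) := by
      intro s hs
      rw [Ideal.mem_span_singleton]
      exact PowerSeries.X_dvd_iff.2 hs
    have a1 : (C (↑v⁻¹ : PowerSeries Ω) * f').eval (PowerSeries.C ξ) ∈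
        (Ideal.span {PowerSeries.X} : Ideal (PowerSeries Ω)) := by
      rw [eval_mul, eval_C]
      exact Ideal.mul_mem_left _ _ (hmem _ hev)
    have a2 : IsUnit ((C (↑v⁻¹ : PowerSeries Ω) * f').derivative.eval (PowerSeries.C ξ)) := by
      rw [derivative_C_mul, eval_mul, eval_C]
      refine (v⁻¹).isUnit.mul ?_
      rw [PowerSeries.isUnit_iff_constantCoeff, isUnit_iff_ne_zero]
      rw [hdev]
      exact hu0
    obtain ⟨ρ, hρ, hρξ⟩ := HenselianRing.is_henselian (I := Ideal.span {PowerSeries.X})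
      (C (↑v⁻¹ : PowerSeries Ω) * f') hmon (PowerSeries.C ξ) a1 (a2.map _)
    have hρ1 : f'.IsRoot ρ := by
      rw [IsRoot, eval_mul, eval_C] at hρ
      rw [IsRoot]
      have := congrArg (fun s => (v : PowerSeries Ω) * s) hρ
      simpa [← mul_assoc] using this
    have hρ2 : (PowerSeries.constantCoeff (R := Ω)) ρ = ξ := by
      rw [Ideal.mem_span_singleton, PowerSeries.X_dvd_iff, map_sub, PowerSeries.constantCoeff_C,
        sub_eq_zero] at hρξ
      exact hρξ
    obtain ⟨f1, hf1⟩ := dvd_iff_isRoot.2 hρ1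
    have hres : f1.map (PowerSeries.constantCoeff (R := Ω)) = u := by
      have h1 : (X - C ξ) * f1.map (PowerSeries.constantCoeff (R := Ω)) = (X - C ξ) * u := by
        rw [← hu, ← hf', hf1, Polynomial.map_mul, Polynomial.map_sub, map_X, map_C, hρ2]
      exact mul_left_cancel₀ (X_sub_C_ne_zero ξ) h1
    have hf'0 : f' ≠ 0 := by
      rintro rfl
      rw [Polynomial.map_zero] at hf'
      exact hfb hf'.symm
    have hf10 : f1 ≠ 0 := by
      rintro rfl
      rw [mul_zero] at hf1
      exact hf'0 hf1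
    have hu00 : u ≠ 0 := by
      rintro rfl
      rw [mul_zero] at hu
      exact hfb hu
    have hd1 : α = 1 + f1.natDegree := by
      rw [← hf'n, hf1, natDegree_mul (X_sub_C_ne_zero ρ) hf10, natDegree_X_sub_C]
    have hd2 : α = 1 + u.natDegree := by
      rw [← hα, hu, natDegree_mul (X_sub_C_ne_zero ξ) hu00, natDegree_X_sub_C]
    have h1 : IsCoprime f1 g := by
      refine cop_lift f1 g f1.natDegree le_rfl (by rw [hres]; omega) (by rw [hres]; exact hu00) ?_
      rw [hres, hg]
      exact hc
    have h2 : IsCoprime (f1.map φ) (g.map φ) := h1.map (mapRingHom φ)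
    have h0 : f1.map φ ∣ f'.map φ := by
      rw [hf1, Polynomial.map_mul]
      exact dvd_mul_left _ _
    have h3 : f1.map φ ∣ f.map φ := by
      refine h2.dvd_of_dvd_mul_right ?_
      rw [hprod]
      exact h0.trans (dvd_mul_right _ _)
    have h4 : f1.map φ ∣ EuclideanDomain.gcd (f.map φ) (f'.map φ) :=
      EuclideanDomain.dvd_gcd h3 h0
    have h5 := natDegree_le_of_dvd h4 hgcd0
    rw [natDegree_map_phi φ hφ f1] at h5
    omega

end Pool.Agent.H717.KC
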